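import Pool.Agent.D0H1.DS.Fin

/-!
# The Tate conjecture for powers of varieties with a dominant slope or a large prime, and for their
# products with all varieties with narrow slopes

Let `X` be a smooth projective variety over (an algebraic closure of) the field with `p` elements whose
cohomology is spanned by the classes of algebraic cycles and by eigenvectors of Frobenius in the middle
degree `w = dim X`, with eigenvalues conjugate to one number `π` (up to roots of unity and powers of
`q`); let `α = π ^ 2 / q ^ w` (or `π / q ^ (w / 2)` for even `w`) and let `K` be the CM field which
contains `α`. We assume either the Tate conjecture for `X × X` in codimension `dim X`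
(`HasWeilNumber`), or nothing but that each conjugate of `π` occurs once, also for all powers of
Frobenius (`HasSimpleWeilNumber`).

For an embedding `σ` of `K` let `d(σ)` be the slope of the eigenvalue `σ(π)` minus `w / 2`, so that
`d(σ̄) = - d(σ)`. **Dominant slope** (in degree `n`, with gap `ε > 0`): there is an embedding `σ₁` with
  `|d(σ₁)| ≥ ε + |d(σ₂)| + ⋯ + |d(σ_m)|`
for all `m ≤ n` and all embeddings `σ₂, …, σ_m` such that the pairs `{σ_i, σ̄_i}`, `i = 1, …, m` are
different. **Tight slope** (`ε = 0`, all `n`): `2 |d(σ₁)|` is at least the sum of all
`|d(σ)|`, `σ ≠ σ₁, σ̄₁`, `d(σ₁) ≠ 0`, and no norm of `α` to a smaller CM subfield of `K` has slopes zero.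
**Large prime** (`ε = 0`, all `n`): some prime `l > 2` which is larger than half the number
`N = [K : ℚ] / 2` of the pairs `{σ, σ̄}` divides the degree of the normal closure of `K` over `ℚ`; the
slopes `d(σ)` are not all zero; and if `K` contains an imaginary quadratic field `E` then the slope of
the norm of `α` to `E` is not zero and the `d(σ)` for the `σ` with a given restriction to `E` are not all
equal. (If the slope of the norm is zero then there are exceptional Tate classes of Weil type.) For
each `N > 2` there are such primes `l ≤ N`; for them the condition on the normal closure holds if its
Galois group induces at least the alternating group on the `N` pairs, and always if `N = l` is prime.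
(More generally we allow linear combinations of the slopes for all `p`-adic places.)

**Theorem.** Suppose that `X` has a dominant slope in degree `n` with gap `ε`, or a tight slope, or a
large prime.
(1) The Tate conjecture holds for the power `X ^ n`, in all codimensions, and the generalised
eigenspaces of the Tate classes are semisimple.
(2) Let `U` be **any** smooth projective variety with narrow slopes: the slopes on `H^w(U)` are in the
interval `(w / 2 - ε, w / 2 + ε)` for all `w`. (More generally: some automorphism of the algebraic
numbers which is complex conjugation on the conjugates of `K` changes the slopes of the Frobenius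
eigenvalues of `U` by less than `2 ε` or not at all; this makes sense for `ε = 0` too.) Then the Tate
conjecture for `X ^ n × U` in codimension `c` is equivalent to the Tate conjecture for `U` in
codimension `c - i` for all `i ≤ c` with a homologically nontrivial cycle of codimension `i` on
`X ^ n`; and similarly with semisimplicity.

Examples.
* Ordinary Calabi-Yau threefolds (`d = ± 3/2` once, `± 1/2` with multiplicity `h^{2,1}`) with simple
  Frobenius on `H^3`: the Tate conjecture for `X ^ 2`, `X ^ 3` for every `h^{2,1}`, and for all powers
  `X ^ n` if `h^{2,1} ≤ 2` (or `h^{2,1} = 3` and the condition on the CM subfields holds), or if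
  `h^{2,1} + 1` is an odd prime (no condition: the slope of a norm to an imaginary quadratic field is
  half an odd number), or if the Galois group is as above; all `X ^ n × U` with `U` a surface if `X` is
  rigid.
* All slopes, not all equal to `w / 2`: all powers, if there is a large prime and no imaginary
  quadratic field in `K`.
* Ordinary surfaces with `p_g = 2`, `b_1 = 0` with simple Frobenius on the transcendental part
  (`d = ± 1` twice, `0`), if `K` has no smaller CM subfields or the condition on the norms holds: all
  powers. Ordinary surfaces with `p_g` odd and smaller than `N = l`, an odd prime: all powers.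
* Ordinary K3 surfaces and cubic fourfolds (`d = ± 1` once, `0`): `X ^ n × U` for all `n` and all `U`
  whose slopes on `H^w(U)` are in `(w / 2 - 1, w / 2 + 1)`: for example all surfaces whose slopes on
  `H^2` are positive, not only those with eigenvalues in independent fields.
* Zarhin's varieties of K3 type are the case in which `d` is zero outside of one pair.

The powers are in the generality of the starting library (`IsPower`: products of copies of `X` and of
varieties with algebraic cohomology). The proof of (1): in a relation between the conjugates of `α` we
move the conjugate with the largest exponent to `σ₁`; in the tight case we use the equality case of the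
triangle inequality on average over the Galois group, which identifies the classes of the exponents
with the conjugates of a CM subfield. If there is a large prime `l`, an automorphism of order `l` has
only one cycle on the pairs; the Fourier coefficients of the exponents and of the slopes on the cycle
have product zero, and those of the exponents (integers) are all zero or all nonzero, so that the
exponents or the slopes are constant on the cycle; in both cases more than half of all pairs are
equivalent, and this defines an imaginary quadratic subfield. If every conjugate of `π` occurs once,
the classes on `X × X` are obtained from the diagonal by the graphs of Frobenius.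
-/

set_option autoImplicit false

open CategoryTheory AlgebraicGeometry NumberField

universe u v

namespace Pool.Agent.Results.MP_950c68_ag.DominantSlopes

open Pool.Agent.H914 Pool.Agent.W534 Pool.Agent.TH132.A Pool.Agent.TH121.KT Pool.Agent.Y138.KC
  Pool.Agent.D0H1.DS VarClass Obj WeilCohomology

/-- **The Tate conjecture for powers of varieties with a dominant slope, and for their products with all
varieties with narrow slopes.** -/
theorem result {k : Type u} [Field k] {𝒱 : VarClass k} {ops : CycleOps 𝒱}
    (W : WeilCohomology.{u, v} ops) [IsAlgClosed W.K] (p : ℕ) [Fact p.Prime]
    (Φ : FrobSystem W p) (ι : AlgebraicClosure ℚ →+* PadicAlgCl p)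
    (X : 𝒱.Obj) (e : ℕ) (K : Type) [Field K] [NumberField K] [IsCMField K] (α : K)
    (hα : ∀ φ : K →+* ℂ, ‖φ α‖ = 1)
    (hX : HasWeilNumber Φ X e α ∨ HasSimpleWeilNumber Φ X e α) (n : ℕ) (ε : ℝ)
    (hdom : Dominates p (e * Φ.e X) ι α n ε) (Z : 𝒱.Obj) (hZ : IsPower W X n Z) :
    (∀ c, SemisimpleTateIn Φ Z c) ∧
    ∀ U : 𝒱.Obj, NarrowSlopes Φ ι K ε U → ∀ c,
      (TateIn Φ (Z.prod U) c ↔
        ∀ i ≤ c, (∃ x, Z.IsCyc i x ∧ ¬ HomEq W x 0) → TateIn Φ U (c - i)) ∧
      (SemisimpleTateIn Φ (Z.prod U) c ↔
        ∀ i ≤ c, (∃ x, Z.IsCyc i x ∧ ¬ HomEq W x 0) → SemisimpleTateIn Φ U (c - i)) :=
  main hα hX hdom hZ

end Pool.Agent.Results.MP_950c68_ag.DominantSlopes
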