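import Pool.Agent.D0H5.Fermat.Explicit

/-!
# The Tate conjecture for Fermat varieties: a criterion with characters of even order

Let `m` be prime to the prime `p`. Suppose that for every squarefree odd number `n > 1` dividing `m`
either `-1` is a power of `p` modulo `n`, or there are characters modulo the prime divisors of `n`,
all of even order, whose product takes the value `-1` at `-1` and the value `1` at `p` and at all
prime divisors of `m` not dividing `n` (the prime two is disregarded if four does not divide `m`).
Then every Tate character of degree `m` in characteristic `p` becomes, after raising the degree to a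
suitable multiple prime to `p`, a member of the closure of the characters of surfaces and of the
standard characters of Aoki. So (given Tate, Shioda and Katsura, Aoki; not formalised) the Tate
conjecture holds for the Fermat varieties of degree `m` over the finite fields of characteristic `p`,
and for their products.

The condition on `n` says that there is an imaginary cyclic number field of two-power degree and of
conductor `n` in which `p` and the prime divisors of `m` not dividing `n` (with two if four divides
`m`) split completely. For imaginary quadratic fields it is a condition on Jacobi symbols.

Explicit degrees, for which the criterion holds by `Pool.Agent.D0H5.Fermat.crit_of_explicit`: suppose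
that `-1` is a power of `p` modulo every odd prime divisor of `m` (not necessarily modulo their
product); that at most one prime divisor of `m` is congruent to three modulo four, and if there is
one, that `p` is not a nonsquare both modulo a prime divisor congruent to five and modulo a prime
divisor congruent to one modulo eight; and that for every prime divisor `j` of `m` (two is
disregarded if four does not divide `m`) either `-1` is a power of `p` modulo the product of the odd
prime divisors different from `j` or there is a `c` such that `p ^ c * j` has odd order modulo each
of them. Examples are `m = 2 ^ a * 3 ^ b * 17 ^ c` for `p` congruent to `2` modulo `51`, and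
`m = 13 ^ a * 17 ^ b * 19 ^ c` for `p` congruent to `21` modulo `4199`; in the first one `p` is not a
square modulo three, in the second one it is a square neither modulo `13` nor modulo `19`.
-/

namespace Pool.Agent.Results.MP_950c68_ag.FermatEvenCharacters

open Pool.Agent.H916T

/-- There are characters `χ q` modulo the prime divisors `q` of `n`, all of even order, whose product
is `-1` at `-1`, and is `1` at `p` and at every prime divisor `j` of `m` which does not divide `n`;
the condition on `j = 2` is only imposed if four divides `m`. -/
def CharacterEven (p m n : ℕ) : Prop :=
  ∃ χ : (q : ℕ) → MulChar (ZMod q) ℂ,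
    (∀ q ∈ n.primeFactors, Even (orderOf (χ q))) ∧
    ∏ q ∈ n.primeFactors, χ q (-1) = -1 ∧
    ∏ q ∈ n.primeFactors, χ q (p : ZMod q) = 1 ∧
    ∀ j : ℕ, j.Prime → j ∣ m → ¬ j ∣ n → (j = 2 → 4 ∣ m) →
      ∏ q ∈ n.primeFactors, χ q (j : ZMod q) = 1

theorem result (p m : ℕ) (hp : p.Prime) (hm : 0 < m) (hpm : p.Coprime m)
    (H : ∀ n : ℕ, Squarefree n → Odd n → 1 < n → n ∣ m →
      (∃ k : ℕ, (p : ZMod n) ^ k = -1) ∨ CharacterEven p m n)
    (s : Multiset (ZMod m)) (hs : IsTate p m s) (hne : s ≠ 0) :
    ∃ N : ℕ, 0 < N ∧ p.Coprime N ∧
      Generated (N * m)
        (fun t => SurfaceTate p (N * m) t ∨ ∃ q : ℕ, q.Prime ∧ q ∣ N * m ∧ Standard q (N * m) t)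
        (s.map fun a => ((N * a.val : ℕ) : ZMod (N * m))) := by
  obtain ⟨N, hN, hpN, h⟩ := Pool.Agent.D0H5.Fermat.main_char hp hm hpm H hs hne
  exact ⟨N, hN, hpN, h (N * m) rfl⟩

end Pool.Agent.Results.MP_950c68_ag.FermatEvenCharacters
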