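import Pool.Agent.D0H44.KH.Times

/-!
# The Tate conjecture for products of powers of K3 surfaces with independent heights, and for their
# products with all varieties whose slopes avoid the heights

Let `X_1, …, X_r` be K3 surfaces of finite heights `h_i` over an algebraic closure of the field with
`p` elements (or other varieties of even dimension with cohomology of this type: `IsK3Frobenius`,
`HasWeilNumber`, `HasHeight`), and let `n_i ≥ 0`. We write `[E_i : ℚ] = 2 d_i` for the CM field
generated by the Frobenius number of `X_i` and `m_i` for the local degree (`h_i` divided by the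
multiplicity of the eigenvalues); for a K3 surface `d_i ≤ 10`. Suppose that for each `i`
* `n_i ≤ 2`, or
* `n_i ≤ 3` and `(d_i, m_i)` is not one of nine exceptional pairs, or
* `m_i` is odd (for example: `h_i` is odd) and `(d_i, m_i)` is not one of four exceptional pairs.

These are the cases in which the Tate conjecture for `X_i ^ n_i` is known (for `n_i ≤ 2`: Charles,
Madapusi Pera, Kim and Madapusi Pera; Ito, Ito and Koshikawa; in the other cases: starting files
`K3Cubes` and `K3OddHeight`, which are about one surface).

**Theorem.** (1) If the heights are independent, that is, if no sum `∑ s_i / h_i` with integers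
`|s_i| ≤ n_i`, not all zero, is an integer, then the Tate conjecture and the semisimplicity of
Frobenius hold in all codimensions for `Z = X_1 ^ n_1 × ⋯ × X_r ^ n_r` (and for the products with
varieties all of whose cohomology is algebraic, for example supersingular K3 surfaces).
(2) Moreover for **every** smooth projective variety `U` such that no slope of `U` is congruent modulo
one to such a sum `∑ s_i / h_i`, the Tate conjecture for `Z × U` in codimension `c` is equivalent to the
Tate conjecture for `U` in codimension `c - i` for all `i ≤ c` with a homologically nontrivial cycle of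
codimension `i` on `Z`; and similarly with semisimplicity.
(3) If the heights `h_i > n_i` are pairwise coprime and prime to `D`, the heights are independent, and
(2) applies to all `U` whose slopes have denominators dividing `D`. For `D = 1`: to all ordinary
varieties `U`.

There is no condition on the CM fields `E_i` (in the starting files `K3Cubes` and `K3OddHeight` the field
of the slopes of `U` is independent of `E`), which may be equal. For example: if `X`, `Y` are K3
surfaces of heights 7 and 9 then the Tate conjecture holds for `X ^ 6 × Y ^ 8 × A` for all ordinary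
abelian varieties `A` for which it is known, like all products of ordinary elliptic curves.

Proof: a relation between conjugates of the Frobenius numbers and an eigenvalue of `U` gives, at
every `p`-adic place, an integral combination of the `1 / h_i` congruent to a slope of `U`; so the
contribution of each `X_i` is zero at every place, hence trivial by the theorems on relations between
the conjugates of one Frobenius number.
-/

set_option autoImplicit false

open CategoryTheory AlgebraicGeometry NumberField

universe u v

namespace Pool.Agent.Results.MP_950c68_ag.K3ProductsIndependentHeights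

open Pool.Agent.H914 Pool.Agent.W534 Pool.Agent.TH132.A Pool.Agent.TH121.KT Pool.Agent.W517.K3
  Pool.Agent.Y138.KC Pool.Agent.D0H44.KH VarClass Obj WeilCohomology

/-- **The Tate conjecture for products of powers of K3 surfaces with independent heights, and for
their products with all varieties whose slopes avoid the heights.** -/
theorem result {k : Type u} [Field k] {𝒱 : VarClass k} {ops : CycleOps 𝒱}
    (W : WeilCohomology.{u, v} ops) [IsAlgClosed W.K] (p : ℕ) [Fact p.Prime]
    (Φ : FrobSystem W p) (ι : AlgebraicClosure ℚ →+* PadicAlgCl p)
    {r : ℕ} (X : Fin r → 𝒱.Obj) (E : Fin r → Type) [∀ i, Field (E i)] [∀ i, NumberField (E i)]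
    [∀ i, IsCMField (E i)] (a e h n d : Fin r → ℕ) (α : ∀ i, E i)
    (hα : ∀ i, IsK3Frobenius p (a i) (α i)) (hX : ∀ i, HasWeilNumber Φ (X i) (e i) (α i))
    (hdim : ∀ i, Even (X i).dim) (hh : ∀ i, HasHeight Φ (X i) (e i) (α i) (h i))
    (hd : ∀ i, Module.finrank ℚ (E i) = 2 * d i)
    (hn : ∀ i, n i ≤ 2 ∨
      (d i ≤ 10 ∧ n i ≤ 3 ∧ (d i, localDegree p (α i)) ∉ exceptionalPairs) ∨
      (d i ≤ 10 ∧ Odd (localDegree p (α i)) ∧
        (d i, localDegree p (α i)) ∉ exceptionalOddPairs))
    (Z : 𝒱.Obj) (hZ : IsProductOfCopies W X n Z) :
    (HeightsIndependent h n 1 → (∀ c, SemisimpleTateIn Φ Z c) ∧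
      ∀ U : 𝒱.Obj, SlopesAvoid Φ ι h n U → ∀ c,
        (TateIn Φ (Z.prod U) c ↔
          ∀ i ≤ c, (∃ x, Z.IsCyc i x ∧ ¬ HomEq W x 0) → TateIn Φ U (c - i)) ∧
        (SemisimpleTateIn Φ (Z.prod U) c ↔
          ∀ i ≤ c, (∃ x, Z.IsCyc i x ∧ ¬ HomEq W x 0) → SemisimpleTateIn Φ U (c - i))) ∧
    (∀ D : ℕ, HeightsIndependent h n D → ∀ U : 𝒱.Obj, SlopeDenominators Φ ι D U →
      SlopesAvoid Φ ι h n U) ∧
    (∀ D : ℕ, (∀ i, n i < h i) → (∀ i j, i ≠ j → Nat.Coprime (h i) (h j)) →
      (∀ i, Nat.Coprime (h i) D) → HeightsIndependent h n D) := by
  have hgood : ∀ i, n i ≤ 2 ∨ Good (d i) (localDegree p (α i)) (n i) := by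
    intro i
    rcases hn i with h1 | ⟨h1, h2, h3⟩ | ⟨h1, h2, h3⟩
    · exact Or.inl h1
    · exact Or.inr ⟨h1, Or.inl ⟨h2, h3⟩⟩
    · exact Or.inr ⟨h1, Or.inr ⟨h2, h3⟩⟩
  exact ⟨fun hI => main hα hd hgood hX hdim hh hI hZ ι,
    fun D hI U hU => avoid_of_denominators hI hU,
    fun D h1 h2 h3 => heightsIndependent_of_coprime h1 h2 h3⟩

end Pool.Agent.Results.MP_950c68_ag.K3ProductsIndependentHeights
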