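import Mathlib
import Pool.Agent.D0H66.MK.Orb

/-!
# Exceptional Tate classes on powers of abelian varieties over finite fields are detected on a power
# whose exponent does not depend on the dimension

Let `A` be an abelian variety over the field with `q = p ^ a` elements, `f` the product of the different
irreducible factors of the characteristic polynomial of its Frobenius endomorphism (`IsWeil`); we
suppose that `f` has no real roots.  The slopes of the roots are the numbers `slope α = v(α) / v(q)`,
and integers `u α = N (2 slope α - 1)` are given; `2 r` is at least the sum of the `|u α|` over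
all roots `α` of `f`.

Let `ℓ` be an odd prime number and `P` a subgroup of `ℓ`-power order of the Galois group of `f` with at
most `2 m` orbits on the roots of `f`.  (For instance a Sylow subgroup, if the degrees of the
irreducible factors of `f` are divisible by `ℓ ^ k` and the degree of `f` is at most `2 m ℓ ^ k`.)
Suppose that `r ^ m < ℓ`.

A *small relation* is a nonzero integral function `b` on the roots of `f` with `b (q / x) = - b x`
which is constant on the orbits of `P`, with `|b x| ≤ r ^ (m - 1)` for all `x`, such that the product of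
the `x ^ b x` is a root of unity.  So it is a relation, with exponents at most `r ^ (m - 1)`,
between the products of the roots in the `2 m` orbits.

We show the equivalence of the following statements:

* (1) there is no small relation;
* (2) the roots of `f` satisfy no multiplicative relation (up to powers of `q` and roots of unity) apart
  from the relations `x * (q / x) = q`;
* (3) for all `n`, all Tate classes on `A ^ n` in all degrees over all finite extensions of the base
  field are polynomials in the Tate classes of degree two over the base field;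
* (4) the same for `A ^ n` with a single `n ≥ 2 r ^ (m - 1)`.

The Tate classes of degree two are classes of divisors by the theorem of Tate.  Formally
`H^1 (A ^ n)` is a vector space with a diagonalisable endomorphism `F` whose eigenvalues are roots of `f`
(`HasRoots`), and each root has multiplicity at least `n` if it is a root of the characteristic
polynomial of `A` (`HasMultiplicity`).

The exponent `2 r ^ (m - 1)` and the bound for the exponents of the relations do not depend on the
dimension of `A`: they depend only on the number `m` of pairs of orbits and on the size `r` of the slopes.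

Idea of the proof: if there is a relation, the relations modulo `ℓ` are a nonzero
representation of the `ℓ`-group `P` over the field with `ℓ` elements and contain a nonzero vector
fixed by `P`.  It is a kernel vector modulo `ℓ` of an integral matrix with at most `m` columns and
rows of norm at most `r`, whose minors are less than `ℓ`.  So the matrix has rank less than `m` over
the rational numbers, and its minors provide a small integral kernel vector, which is a small relation by
Kronecker's theorem.
-/

set_option autoImplicit false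

namespace Pool.Agent.Results.MP_950c68_ag.SylowOrbits

open Polynomial MulAction

universe u₁ v₁ u₂ v₂

/-- The `p`-adic valuation of `α`, normalised so that `p ^ a` has valuation `1`. -/
noncomputable def slope (p : ℕ) [Fact p.Prime] (a : ℕ) (α : PadicAlgCl p) : ℝ :=
  -Real.logb ((p : ℝ) ^ a) ‖α‖

/-- `f` is separable and its roots are algebraic integers of absolute value the square root of `p ^ a`,
not real: `f` is a constant times a product of different minimal polynomials of nonreal Weil
numbers. -/
structure IsWeil (p a : ℕ) (f : ℚ[X]) : Prop where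
  separable : f.Separable
  integral : ∀ z : ℂ, aeval z f = 0 → IsIntegral ℤ z
  weil : ∀ z : ℂ, aeval z f = 0 → ‖z‖ ^ 2 = (p : ℝ) ^ a
  nonreal : ∀ z : ℂ, aeval z f = 0 → z.im ≠ 0

/-- `F` is diagonalisable, and its eigenvalues are roots of `f`. -/
def HasRoots {Ω V : Type*} [Field Ω] [CharZero Ω] [AddCommGroup V] [Module Ω V] (f : ℚ[X])
    (F : V →ₗ[Ω] V) : Prop :=
  Submodule.span Ω {v : V | ∃ μ : Ω, aeval μ f = 0 ∧ F v = μ • v} = ⊤

/-- All roots of `f` are eigenvalues of `F` with multiplicity at least `n`. -/
def HasMultiplicity {Ω V : Type*} [Field Ω] [CharZero Ω] [AddCommGroup V] [Module Ω V] (f : ℚ[X])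
    (F : V →ₗ[Ω] V) (n : ℕ) : Prop :=
  ∀ μ : Ω, aeval μ f = 0 → ∃ w : Fin n → V, LinearIndependent Ω w ∧ ∀ i, F (w i) = μ • w i

/-- All Tate classes of all degrees `2 j` over all extensions (of degree `s`) are polynomials in the Tate
classes of degree two over the base field. -/
def TateGenerated {Ω V : Type*} [Field Ω] [AddCommGroup V] [Module Ω V] (q : Ω)
    (F : V →ₗ[Ω] V) : Prop :=
  ∀ (j s : ℕ), 0 < s → ∀ x ∈ ⋀[Ω]^(2 * j) V, ExteriorAlgebra.map (F ^ s) x = (q ^ j) ^ s • x →
    x ∈ Algebra.adjoin Ω {y : ExteriorAlgebra Ω V | y ∈ ⋀[Ω]^2 V ∧ ExteriorAlgebra.map F y = q • y}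

/-- A small relation, see above. -/
def IsSmallRelation (q : ℕ) (f : ℚ[X]) (P : Subgroup f.Gal) (B : ℕ)
    (b : f.rootSet f.SplittingField → ℤ) : Prop :=
  (∃ x, b x ≠ 0) ∧ (∀ x y : f.rootSet f.SplittingField, x.1 * y.1 = q → b y = -b x) ∧
    (∀ σ ∈ P, ∀ x, b (σ • x) = b x) ∧ (∀ x, |b x| ≤ B) ∧
    ∃ n : ℕ, 0 < n ∧ (∏ x : f.rootSet f.SplittingField, (x : f.SplittingField) ^ b x) ^ n = 1

/-- The roots of `f` satisfy only the relations `x * (q / x) = q`, up to roots of unity and
powers of `q`. -/
def OnlyTrivialRelations (q : ℕ) (f : ℚ[X]) : Prop :=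
  ∀ (c : f.rootSet f.SplittingField → ℤ) (n : ℕ) (k : ℤ), 0 < n →
    (∏ x : f.rootSet f.SplittingField, (x : f.SplittingField) ^ c x) ^ n =
      (q : f.SplittingField) ^ k →
    ∀ x y : f.rootSet f.SplittingField, x.1 * y.1 = q → c x = c y

theorem cast_q (K : Type*) [Field K] [CharZero K] (p a : ℕ) :
    (((p : ℚ) ^ a : ℚ) : K) = (p : K) ^ a := by
  push_cast
  rfl

open Pool.Agent.D0H66.MK Pool.Agent.H925R2 in
/-- The equivalence of (1), (2), (3) and (4). -/
theorem result (p : ℕ) [Fact p.Prime] (a : ℕ) (ha : 0 < a) (f : ℚ[X]) (hf : IsWeil p a f)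
    -- the slopes
    (N : ℕ) (hN : 0 < N) (u : PadicAlgCl p → ℤ)
    (hu : ∀ α : PadicAlgCl p, aeval α f = 0 → (N : ℝ) * (2 * slope p a α - 1) = (u α : ℝ))
    (r : ℕ) (hr : 1 ≤ r)
    (hur : ∑ α : f.rootSet (PadicAlgCl p), |u α.1| ≤ 2 * (r : ℤ))
    -- the subgroup of the Galois group
    (l : ℕ) [Fact l.Prime] (hl : l ≠ 2) (P : Subgroup f.Gal) (hP : IsPGroup l P) (m : ℕ)
    (hm : Nat.card (orbitRel.Quotient P (f.rootSet f.SplittingField)) ≤ 2 * m ∨
      ∃ (k : ℕ) (S : Sylow l f.Gal), P = S ∧ f.natDegree ≤ 2 * m * l ^ k ∧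
        ∀ h : ℚ[X], Irreducible h → h ∣ f → l ^ k ∣ h.natDegree)
    (hrl : r ^ m < l) :
    -- (1) implies (2)
    ((∀ b, ¬ IsSmallRelation (p ^ a) f P (r ^ (m - 1)) b) → OnlyTrivialRelations (p ^ a) f) ∧
    -- (2) implies (3)
    (OnlyTrivialRelations (p ^ a) f →
      ∀ (Ω : Type u₁) [Field Ω] [IsAlgClosed Ω] [CharZero Ω] (V : Type v₁) [AddCommGroup V]
        [Module Ω V] (F : V →ₗ[Ω] V), HasRoots f F → TateGenerated ((p : Ω) ^ a) F) ∧
    -- (4) implies (1)
    (∀ (Ω : Type u₂) [Field Ω] [IsAlgClosed Ω] [CharZero Ω] (V : Type v₂) [AddCommGroup V]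
        [Module Ω V] (F : V →ₗ[Ω] V), HasRoots f F → HasMultiplicity f F (2 * r ^ (m - 1)) →
      TateGenerated ((p : Ω) ^ a) F → ∀ b, ¬ IsSmallRelation (p ^ a) f P (r ^ (m - 1)) b) := by
  classical
  have hpp : p.Prime := Fact.out
  set q : ℚ := (p : ℚ) ^ a with hqdef
  have hq : (0 : ℚ) < q := pow_pos (by exact_mod_cast hpp.pos) a
  have hq1 : q ≠ 1 := by
    have : (1 : ℚ) < q := one_lt_pow₀ (by exact_mod_cast hpp.one_lt) ha.ne'
    exact this.ne'
  have hweil : ∀ z : ℂ, aeval z f = 0 → ‖z‖ ^ 2 = (q : ℝ) := by
    intro z hz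
    rw [hf.weil z hz, hqdef]
    push_cast
    rfl
  have hsep := hf.separable
  have hcastn : ((p ^ a : ℕ) : f.SplittingField) = (q : f.SplittingField) := by
    rw [hqdef]
    push_cast
    rfl
  have hint : ∀ x : f.SplittingField, aeval x f = 0 → IsIntegral ℤ x := by
    intro x hx
    let τ : f.SplittingField →ₐ[ℚ] ℂ := IsAlgClosed.lift
    have h1 : aeval (τ x) f = 0 := by rw [aeval_algHom_apply, hx, map_zero]
    obtain ⟨Q, hQ, hQx⟩ := hf.integral _ h1
    refine ⟨Q, hQ, ?_⟩
    apply (τ : f.SplittingField →+* ℂ).injective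
    rw [map_zero, hom_eval₂]
    rw [← hQx]
    congr 1
    exact RingHom.ext_int _ _
  have hfix : ∀ x, si hsep hq hweil x ≠ x := by
    intro x h
    let τ : f.SplittingField →ₐ[ℚ] ℂ := IsAlgClosed.lift
    have h1 := congrArg (fun t : f.rootSet f.SplittingField => τ t.1) h
    simp only [si_coe, map_div₀, map_ratCast] at h1
    have hx0 : τ x.1 ≠ 0 := by
      intro h
      exact rne hsep hq hweil x ((map_eq_zero τ).1 h)
    rw [div_eq_iff hx0] at h1
    have h2 := hf.nonreal _ (root_map τ x)
    have h3 := hweil _ (root_map τ x)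
    -- `z * z = q = |z| ^ 2` implies that `z` is real
    set z := τ x.1 with hz
    have h4 : z * z = z * starRingEnd ℂ z := by
      rw [← h1, Complex.mul_conj, Complex.normSq_eq_norm_sq, h3]
      push_cast
      rfl
    have h5 := mul_left_cancel₀ hx0 h4
    exact h2 (Complex.conj_eq_iff_im.1 h5.symm)
  have hsi : ∀ x y : f.rootSet f.SplittingField, x.1 * y.1 = ((p ^ a : ℕ) : f.SplittingField) ↔
      y = si hsep hq hweil x := by
    intro x y
    rw [hcastn]
    have hx := rne hsep hq hweil x
    constructor
    · intro h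
      apply Subtype.ext
      rw [si_coe, eq_div_iff hx, mul_comm]
      exact h
    · rintro rfl
      rw [si_coe]
      field_simp
  have hm' : Nat.card (orbitRel.Quotient P (f.rootSet f.SplittingField)) ≤ 2 * m := by
    rcases hm with h | ⟨k, S, rfl, h1, h2⟩
    · exact h
    · exact card_root_orbits_le hsep l k m h1 h2 S
  have hodd : Odd l := (Fact.out : l.Prime).odd_of_ne_two hl
  have hB : ((r ^ (m - 1) : ℕ) : ℤ) = (r : ℤ) ^ (m - 1) := by push_cast; rfl
  refine ⟨?_, ?_, ?_⟩
  · intro hno c n k hn hcn
    have hp1 : (1 : ℝ) < (p : ℝ) ^ a := one_lt_pow₀ (by exact_mod_cast hpp.one_lt) ha.ne'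
    have hlog : 0 < Real.log ((p : ℝ) ^ a) := Real.log_pos hp1
    have hN' : (N : ℝ) ≠ 0 := by exact_mod_cast hN.ne'
    let e : f.SplittingField →ₐ[ℚ] PadicAlgCl p := IsAlgClosed.lift
    have hdev : ∀ α : PadicAlgCl p, aeval α f = 0 →
        dev p q α = -(Real.log ((p : ℝ) ^ a) / N) * u α := by
      intro α hα
      rw [← hu α hα, hqdef, dev_pow p a ha α]
      unfold slope
      field_simp
    have hsum : ∑ x : f.rootSet f.SplittingField, |u (e x.1)| ≤ 2 * (r : ℤ) := by
      refine le_trans (le_of_eq ?_) hur
      refine Fintype.sum_bijective (fun x : f.rootSet f.SplittingField =>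
        (⟨e x.1, mem_rootSet.2 ⟨hsep.ne_zero, root_map e x⟩⟩ : f.rootSet (PadicAlgCl p)))
        ⟨?_, ?_⟩ _ _ fun x => rfl
      · intro x y h
        exact Subtype.ext (e.injective (congrArg Subtype.val h))
      · rintro ⟨y, hy⟩
        obtain ⟨x, hx⟩ := ex_root hsep e y (mem_rootSet.1 hy).2
        exact ⟨x, Subtype.ext hx⟩
    have hanti := anti_one hsep hq hweil c n hn k hq1 (by rw [mon_def, hcn, hcastn])
    have key := no_rel hsep hq hweil hint hfix p a hqdef e _
      (neg_ne_zero.2 (div_ne_zero hlog.ne' hN')) u hdev r hr hsum l hodd P hP m hm' hrl (by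
        intro b hb1 hb2 hb3 hb4 n hn hbn
        refine hno b ⟨hb4, ?_, hb1, ?_, n, hn, hbn⟩
        · intro x y hxy
          rw [(hsi x y).1 hxy]
          exact hb2 x
        · intro x
          rw [hB]
          exact hb3 x) (fun x => c x - c (si hsep hq hweil x)) (by
        intro x
        rw [si_si]
        ring) n hn hanti
    intro x y hxy
    have h1 := key x
    rw [(hsi x y).1 hxy]
    linarith
  · intro htriv Ω _ _ _ V _ _ F hF j s hs x hx hFx
    have hcΩ : ((q : ℚ) : Ω) = (p : Ω) ^ a := cast_q Ω p a
    let i : f.SplittingField →ₐ[ℚ] Ω := IsAlgClosed.lift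
    refine mem_adjoin_of_balanced F ((p : Ω) ^ a) {μ : Ω | aeval μ f = 0} ?_ hF j s ?_ x hx hFx
    · intro y hy
      obtain ⟨z, rfl⟩ := ex_root hsep i y hy
      refine ⟨fun h => rne hsep hq hweil z ((map_eq_zero i).1 h), fun h => ?_⟩
      rw [← hcΩ, ← map_ratCast i, ← map_div₀] at h
      exact hfix z (Subtype.ext (i.injective h))
    · intro L hlen hL hprod y hy
      obtain ⟨z, rfl⟩ := ex_root hsep i y hy
      have h1 := prod_eq hsep i L hL (fun y => y)
      rw [List.map_id'] at h1
      have h2 : (∏ x : f.rootSet f.SplittingField, (x : f.SplittingField) ^ ((ct i L x : ℕ) : ℤ)) ^ s =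
          ((p ^ a : ℕ) : f.SplittingField) ^ ((j * s : ℕ) : ℤ) := by
        apply i.injective
        rw [hcastn, zpow_natCast, map_pow, map_prod, map_pow, map_ratCast, hcΩ, pow_mul, ← hprod, h1]
        congr 1
        refine Finset.prod_congr rfl fun x _ => ?_
        rw [zpow_natCast, map_pow]
        rfl
      have h3 := htriv (fun x => (ct i L x : ℤ)) s _ hs h2 z (si hsep hq hweil z)
        ((hsi z _).2 rfl)
      have h4 : (p : Ω) ^ a / i z.1 = i (si hsep hq hweil z).1 := by
        rw [si_coe, map_div₀, map_ratCast, hcΩ]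
      rw [h4]
      exact_mod_cast h3
  · rintro Ω _ _ _ V _ _ F hF hM hgen b ⟨hb0, hb1, hb2, hb3, n, hn, hbn⟩
    have hcΩ : ((q : ℚ) : Ω) = (p : Ω) ^ a := cast_q Ω p a
    obtain ⟨j, y, hy1, hy2, hy3⟩ := exotic hsep hq hweil F hF (2 * r ^ (m - 1)) hM b
      (fun x => hb1 x _ ((hsi x _).2 rfl)) hb0 (fun x => by
        have := hb3 x
        push_cast at this ⊢
        linarith) n hbn
    apply hy3
    rw [hcΩ] at hy2 ⊢
    exact hgen j n hn y hy1 hy2

end Pool.Agent.Results.MP_950c68_ag.SylowOrbits
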